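import Pool.Agent.Helper19.TW.C5b
import Pool.Agent.Helper45.TW.A1

/-!
# Module C9: powers in the completions
-/

set_option autoImplicit false

namespace Pool.Agent.Helper54.PT

open Polynomial Finset Filter Topology Module Pool.Agent.Helper47.BSD

universe u

/-- Elements of a nonarchimedean field which become powers in the completion are powers up to
elements close to one. -/
theorem c9_near {K : Type u} [Field K] (v : AbsoluteValue K ℝ)
    (hna : ∀ x y, v (x + y) ≤ max (v x) (v y)) (ℓ : ℕ) (hℓ : ℓ ≠ 0) {x : K} (hx : x ≠ 0)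
    (h : ∃ y : v.Completion, algebraMap K v.Completion x = y ^ ℓ) :
    ∃ z : K, z ≠ 0 ∧ v (z ^ ℓ / x - 1) < 1 := by
  obtain ⟨y, hy⟩ := h
  have hnat : ∀ n : ℕ, v (n : K) ≤ 1 := by
    intro n
    induction n with
    | zero => simp
    | succ n ih =>
      rw [Nat.cast_succ]
      exact (hna _ _).trans (max_le ih (by rw [map_one]))
  have : IsUltrametricDist v.Completion := by
    rw [isUltrametricDist_iff_forall_norm_natCast_le_one]
    intro n
    have h1 : (n : v.Completion) = algebraMap K v.Completion (n : K) := by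
      rw [map_natCast]
    rw [h1, Helper47.BSD.norm_algebraMap]
    exact hnat n
  have hx' : algebraMap K v.Completion x ≠ 0 := by
    rw [Ne, map_eq_zero_iff _ (algebraMap K v.Completion).injective]
    exact hx
  have hy0 : y ≠ 0 := by
    rintro rfl
    rw [zero_pow hℓ] at hy
    exact hx' hy
  have hyn : 0 < ‖y‖ := norm_pos_iff.2 hy0
  obtain ⟨z', hz'⟩ := Metric.denseRange_iff.1
    (UniformSpace.Completion.denseRange_coe (α := WithAbs v)) y ‖y‖ hyn
  set z : K := z'.ofAbs with hz
  have hz1 : ‖y - algebraMap K v.Completion z‖ < ‖y‖ := by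
    rw [dist_eq_norm] at hz'
    exact hz'
  set Z : v.Completion := algebraMap K v.Completion z with hZ
  have hz0 : z ≠ 0 := by
    intro h0
    rw [hZ, h0, map_zero, sub_zero] at hz1
    exact lt_irrefl _ hz1
  refine ⟨z, hz0, ?_⟩
  have hu : ‖Z / y - 1‖ < 1 := by
    have h1 : Z / y - 1 = -(y - Z) / y := by field_simp; ring
    rw [h1, norm_div, norm_neg, div_lt_one hyn]
    exact hz1
  have hu1 : ‖Z / y‖ ≤ 1 := by
    have h1 : Z / y = (Z / y - 1) + 1 := by ring
    rw [h1]
    exact (IsUltrametricDist.norm_add_le_max _ _).trans (max_le hu.le (by rw [norm_one]))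
  have hul : ‖(Z / y) ^ ℓ - 1‖ < 1 := by
    have h2 : ∀ n : ℕ, ‖(Z / y) ^ n - 1‖ < 1 := by
      intro n
      induction n with
      | zero => simp
      | succ n ih =>
        have h3 : (Z / y) ^ (n + 1) - 1 = ((Z / y) ^ n - 1) * (Z / y) + (Z / y - 1) := by ring
        rw [h3]
        refine lt_of_le_of_lt (IsUltrametricDist.norm_add_le_max _ _) (max_lt ?_ hu)
        rw [norm_mul]
        exact lt_of_le_of_lt (mul_le_of_le_one_right (norm_nonneg _) hu1) ih
    exact h2 ℓ
  have h4 : (Z / y) ^ ℓ - 1 = algebraMap K v.Completion (z ^ ℓ / x - 1) := by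
    rw [div_pow, ← hy, map_sub, map_div₀, map_pow, map_one]
  rw [h4, Helper47.BSD.norm_algebraMap] at hul
  exact hul

section

variable {F : Type} [Field F]

theorem c9_naP (P : Prm F) (v : AbsoluteValue (RatFunc F) ℝ) (hv : IsAbsP P v)
    (x y : RatFunc F) : v (x + y) ≤ max (v x) (v y) := by
  rcases eq_or_ne x 0 with rfl | hx
  · rw [zero_add]; exact le_max_right _ _
  rcases eq_or_ne y 0 with rfl | hy
  · rw [add_zero]; exact le_max_left _ _
  rcases eq_or_ne (x + y) 0 with hxy | hxy
  · rw [hxy, map_zero]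
    exact le_trans (v.nonneg x) (le_max_left _ _)
  rw [hv x hx, hv y hy, hv _ hxy]
  have h := ordK_add P hx hy hxy
  rcases min_le_iff.1 h with h1 | h1
  · exact le_max_of_le_left (zpow_le_zpow_right₀ one_le_two (by omega))
  · exact le_max_of_le_right (zpow_le_zpow_right₀ one_le_two (by omega))

theorem c9_naInf (v : AbsoluteValue (RatFunc F) ℝ) (hv : IsAbsInf v)
    (x y : RatFunc F) : v (x + y) ≤ max (v x) (v y) := by
  rcases eq_or_ne x 0 with rfl | hx
  · rw [zero_add]; exact le_max_right _ _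
  rcases eq_or_ne y 0 with rfl | hy
  · rw [add_zero]; exact le_max_left _ _
  rcases eq_or_ne (x + y) 0 with hxy | hxy
  · rw [hxy, map_zero]
    exact le_trans (v.nonneg x) (le_max_left _ _)
  rw [hv x hx, hv y hy, hv _ hxy]
  have h := RatFunc.intDegree_add_le hy hxy
  rcases le_max_iff.1 h with h1 | h1
  · exact le_max_of_le_left (zpow_le_zpow_right₀ one_le_two h1)
  · exact le_max_of_le_right (zpow_le_zpow_right₀ one_le_two h1)

theorem c9_one {K : Type u} [Field K] (v : AbsoluteValue K ℝ)
    (hna : ∀ x y, v (x + y) ≤ max (v x) (v y)) {w : K} (hw : v (w - 1) < 1) : v w = 1 := by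
  apply le_antisymm
  · have h1 : w = (w - 1) + 1 := by ring
    rw [h1]
    exact (hna _ _).trans (max_le hw.le (by rw [map_one]))
  · by_contra h
    push Not at h
    have h1 : (1 : K) = w + -(w - 1) := by ring
    have h2 : v 1 ≤ max (v w) (v (-(w - 1))) := by
      conv_lhs => rw [h1]
      exact hna _ _
    rw [map_one, v.map_neg] at h2
    exact absurd h2 (not_le.2 (max_lt h hw))

theorem class_of_pow_absP {ℓ : ℕ} [Fact ℓ.Prime] {lg : F → ZMod ℓ} (hlg : IsLog ℓ lg)
    (P : Prm F) (v : AbsoluteValue (RatFunc F) ℝ) (hv : IsAbsP P v) {x : RatFunc F} (hx : x ≠ 0)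
    (h : ∃ y : v.Completion, algebraMap (RatFunc F) v.Completion x = y ^ ℓ) :
    (ℓ : ℤ) ∣ ordK P x ∧ rsK lg P x = 0 := by
  have hℓ : ℓ ≠ 0 := (Fact.out : ℓ.Prime).ne_zero
  obtain ⟨z, hz0, hz⟩ := c9_near v (c9_naP P v hv) ℓ hℓ hx h
  set w : RatFunc F := z ^ ℓ / x with hw
  have hw0 : w ≠ 0 := div_ne_zero (pow_ne_zero _ hz0) hx
  have hwx : z ^ ℓ = w * x := by rw [hw, div_mul_cancel₀ _ hx]
  have hv1 : v w = 1 := c9_one v (c9_naP P v hv) hz
  have how : ordK P w = 0 := by
    rw [hv w hw0] at hv1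
    have h1 := (zpow_eq_one_iff_right₀ (by norm_num : (0:ℝ) ≤ 2) (by norm_num)).1 hv1
    omega
  refine ⟨⟨ordK P z, ?_⟩, ?_⟩
  · have h1 := ordK_mul P hw0 hx
    rw [← hwx, ordK_pow P hz0, how, zero_add] at h1
    exact h1.symm
  · -- the numerator and the denominator are prime to `P`
    have hcop := RatFunc.isCoprime_num_denom w
    have hd0 : w.denom ≠ 0 := RatFunc.denom_ne_zero w
    have hn0 : w.num ≠ 0 := RatFunc.num_ne_zero hw0
    have hmul : (multiplicity P.1 w.num : ℤ) = multiplicity P.1 w.denom := by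
      have := how
      unfold ordK at this
      omega
    have hPn : ¬ P.1 ∣ w.num := by
      intro hdv
      have hfin : FiniteMultiplicity P.1 w.denom :=
        FiniteMultiplicity.of_not_isUnit P.2.2.not_isUnit hd0
      have hfin' : FiniteMultiplicity P.1 w.num :=
        FiniteMultiplicity.of_not_isUnit P.2.2.not_isUnit hn0
      have h1 : multiplicity P.1 w.num ≠ 0 := by
        intro h0
        exact (multiplicity_eq_zero.1 h0) hdv
      have h2 : multiplicity P.1 w.denom ≠ 0 := by omega
      have h3 : P.1 ∣ w.denom := by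
        by_contra hc
        exact h2 (multiplicity_eq_zero.2 hc)
      exact P.2.2.not_isUnit (hcop.isUnit_of_dvd' hdv h3)
    have hPd : ¬ P.1 ∣ w.denom := by
      intro hdv
      have h1 : multiplicity P.1 w.denom ≠ 0 := by
        intro h0
        exact (multiplicity_eq_zero.1 h0) hdv
      have h2 : multiplicity P.1 w.num ≠ 0 := by omega
      exact h2 (multiplicity_eq_zero.2 hPn)
    have hwd : algebraMap F[X] (RatFunc F) w.num = w * algebraMap F[X] (RatFunc F) w.denom := by
      have h1 := RatFunc.num_div_denom w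
      have h2 : algebraMap F[X] (RatFunc F) w.denom ≠ 0 := RatFunc.algebraMap_ne_zero hd0
      nth_rw 2 [← h1]
      rw [div_mul_cancel₀ _ h2]
    have hdvd : P.1 ∣ w.num - w.denom := by
      rcases eq_or_ne (w.num - w.denom) 0 with h0 | h0
      · rw [h0]; exact dvd_zero _
      have hda : algebraMap F[X] (RatFunc F) w.denom ≠ 0 := RatFunc.algebraMap_ne_zero hd0
      have h1 : algebraMap F[X] (RatFunc F) (w.num - w.denom) =
          (w - 1) * algebraMap F[X] (RatFunc F) w.denom := by
        rw [map_sub, hwd]; ring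
      have hw1 : w - 1 ≠ 0 := by
        intro h2
        rw [h2, zero_mul] at h1
        exact RatFunc.algebraMap_ne_zero h0 h1
      have h3 : 0 < ordK P (w - 1) := by
        rw [hv _ hw1] at hz
        have := (zpow_lt_one_iff_right₀ (by norm_num : (1:ℝ) < 2)).1 hz
        omega
      have h4 := ordK_mul P hw1 hda
      rw [← h1, ordK_poly P h0, ordK_poly P hd0, multiplicity_eq_zero.2 hPd] at h4
      have h5 : multiplicity P.1 (w.num - w.denom) ≠ 0 := by
        intro h6
        rw [h6] at h4
        push_cast at h4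
        omega
      by_contra hc
      exact h5 (multiplicity_eq_zero.2 hc)
    have hrw : rsK lg P w = 0 := by
      have hda : algebraMap F[X] (RatFunc F) w.denom ≠ 0 := RatFunc.algebraMap_ne_zero hd0
      have h1 := rsK_mul hlg P hw0 hda
      rw [← hwd, rsK_poly hlg P hPn, rsK_poly hlg P hPd, sy_congr hdvd] at h1
      have h2 := h1.symm
      rwa [add_eq_right] at h2
    have h1 := rsK_mul hlg P hw0 hx
    rw [← hwx, rsK_pow hlg P hz0, hrw, zero_add, ZMod.natCast_self, zero_mul] at h1
    exact h1.symm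

theorem class_of_pow_absInf {ℓ : ℕ} [Fact ℓ.Prime] {lg : F → ZMod ℓ} (hlg : IsLog ℓ lg)
    (v : AbsoluteValue (RatFunc F) ℝ) (hv : IsAbsInf v) {x : RatFunc F} (hx : x ≠ 0)
    (h : ∃ y : v.Completion, algebraMap (RatFunc F) v.Completion x = y ^ ℓ) :
    (ℓ : ℤ) ∣ x.intDegree ∧ lg (lcK x) = 0 := by
  have hℓ : ℓ ≠ 0 := (Fact.out : ℓ.Prime).ne_zero
  obtain ⟨z, hz0, hz⟩ := c9_near v (c9_naInf v hv) ℓ hℓ hx h
  set w : RatFunc F := z ^ ℓ / x with hw
  have hw0 : w ≠ 0 := div_ne_zero (pow_ne_zero _ hz0) hx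
  have hwx : z ^ ℓ = w * x := by rw [hw, div_mul_cancel₀ _ hx]
  have hv1 : v w = 1 := c9_one v (c9_naInf v hv) hz
  have how : w.intDegree = 0 := by
    rw [hv w hw0] at hv1
    exact (zpow_eq_one_iff_right₀ (by norm_num : (0:ℝ) ≤ 2) (by norm_num)).1 hv1
  have hpow : ∀ n : ℕ, (z ^ n).intDegree = n * z.intDegree ∧ lcK (z ^ n) = lcK z ^ n := by
    intro n
    induction n with
    | zero =>
      refine ⟨by simp, ?_⟩
      have h1 := lcK_poly (1 : F[X])
      rw [map_one, leadingCoeff_one] at h1
      rw [pow_zero, pow_zero, h1]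
    | succ n ih =>
      rw [pow_succ, RatFunc.intDegree_mul (pow_ne_zero _ hz0) hz0,
        lcK_mul (pow_ne_zero _ hz0) hz0, ih.1, ih.2, pow_succ]
      refine ⟨?_, rfl⟩
      push_cast
      ring
  have hlw : lcK w = 1 := by
    have hd0 : w.denom ≠ 0 := RatFunc.denom_ne_zero w
    have hn0 : w.num ≠ 0 := RatFunc.num_ne_zero hw0
    have hdeg : w.num.natDegree = w.denom.natDegree := by
      have h1 := how
      unfold RatFunc.intDegree at h1
      omega
    have hwd : algebraMap F[X] (RatFunc F) w.num = w * algebraMap F[X] (RatFunc F) w.denom := by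
      have h1 := RatFunc.num_div_denom w
      have h2 : algebraMap F[X] (RatFunc F) w.denom ≠ 0 := RatFunc.algebraMap_ne_zero hd0
      nth_rw 2 [← h1]
      rw [div_mul_cancel₀ _ h2]
    have hlc : w.num.leadingCoeff = w.denom.leadingCoeff := by
      rcases eq_or_ne (w.num - w.denom) 0 with h0 | h0
      · rw [sub_eq_zero.1 h0]
      have hda : algebraMap F[X] (RatFunc F) w.denom ≠ 0 := RatFunc.algebraMap_ne_zero hd0
      have h1 : algebraMap F[X] (RatFunc F) (w.num - w.denom) =
          (w - 1) * algebraMap F[X] (RatFunc F) w.denom := by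
        rw [map_sub, hwd]; ring
      have hw1 : w - 1 ≠ 0 := by
        intro h2
        rw [h2, zero_mul] at h1
        exact RatFunc.algebraMap_ne_zero h0 h1
      have h3 : (w - 1).intDegree < 0 := by
        rw [hv _ hw1] at hz
        exact (zpow_lt_one_iff_right₀ (by norm_num : (1:ℝ) < 2)).1 hz
      have h4 := RatFunc.intDegree_mul hw1 hda
      rw [← h1, RatFunc.intDegree_polynomial, RatFunc.intDegree_polynomial] at h4
      have h5 : (w.num - w.denom).natDegree < w.denom.natDegree := by omega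
      have h6 : (w.num - w.denom).coeff w.denom.natDegree = 0 :=
        coeff_eq_zero_of_natDegree_lt h5
      rw [coeff_sub, sub_eq_zero] at h6
      rw [leadingCoeff, leadingCoeff, hdeg]
      exact h6
    have hmon : w.denom.leadingCoeff = 1 := RatFunc.monic_denom w
    rw [lcK, hlc, hmon]
  refine ⟨⟨z.intDegree, ?_⟩, ?_⟩
  · have h1 := RatFunc.intDegree_mul hw0 hx
    rw [← hwx, (hpow ℓ).1, how, zero_add] at h1
    exact h1.symm
  · have h1 := lcK_mul hw0 hx
    rw [← hwx, (hpow ℓ).2, hlw, one_mul] at h1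
    exact (hlg.2.1 _ (lcK_ne_zero hx)).2 ⟨lcK z, h1⟩

end

end Pool.Agent.Helper54.PT
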